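import Pool.Agent.MP_5d9b3c_ag.P3D.Asm
import Pool.Agent.MP_5d9b3c_ag.P3X.SBX
import Pool.Agent.MP_5d9b3c_ag.P3K.Asm
import Pool.Agent.MP_5d9b3c_ag.P3O.Asm
import Pool.Agent.MP_5d9b3c_ag.P3F.All
import Pool.Agent.MP_5d9b3c_ag.P3V.All
import Pool.Agent.MP_5d9b3c_ag.P3.Low
import Pool.Agent.MP_ee8c61_ag.M3.Final

/-! The assembly of all blocks. -/

namespace Pool.Agent.MP_5d9b3c_ag.P3Z

open Pool.Agent.MP_ee8c61_ag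
open M3 M3E P3 P3T P3G

theorem sstar (F : Type) [Field F] [Algebra F ℂ] [Algebra.IsAlgebraic F ℂ] : SSTAR F := by
  intro f la b β Q W M o H G hf hM ho hO
  obtain ⟨D, d1, d2, d3, d4, d5, d6, d7, d8⟩ := P3O.orb eout (kout_of eout) frows (M3L.sr1 eout)
    (M3FG.sbox eout (M3S4.s4_of eout.bas (M3CP.cmp_of eout M3S.thmFnd) M3S.thmDESC))
    H hM.ok ho hf G.v G.ev hM.perm hM.amp hO
  refine ⟨_, _, d6, d7, d2.d, d2.v, fun t ht => ?_⟩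
  rw [← d4, ← d5]
  by_cases hP : D.Pt
  · rcases d8 with ⟨h1, h2⟩ | ⟨h1, h2, h3⟩
    · exact (h2 hP).elim (fun h => P3F.lf2 F _ _ D _ _ d1 d2 (d3 t ht) ⟨h1, hP, h⟩) fun h =>
        P3V.lvc F _ _ D _ _ d1 d2 (d3 t ht) ⟨h1, hP, h⟩
    · exact P3V.lvz F _ _ D _ _ d1 d2 (d3 t ht) ⟨h1, h2, h3, hP⟩
  · rcases d8 with ⟨h1, -⟩ | ⟨h1, h2, h3⟩
    · exact P3F.lf1 F _ _ D _ _ d1 d2 (d3 t ht) ⟨h1, hP⟩
    · exact P3F.lf3 F _ _ D _ _ d1 d2 (d3 t ht) ⟨h1, h2, h3, hP⟩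

theorem main : P3.Main :=
  P3.top P3R.sb1R P3K.igu sbs fun p _ _ _ =>
    ⟨sstar _, P3D.sBX p eout, P3D.sCOV0 p eout, P3D.sBK p eout M3L.scon⟩

end Pool.Agent.MP_5d9b3c_ag.P3Z
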